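import Pool.Agent.VTP.StmtsT

/-!
# Squad VTP, row ETW: the exponents of the twist knots
-/

set_option autoImplicit false

namespace Pool.Agent.VTP.H42

open Finset Pool.Agent.ZOL

theorem bp_congr {n : ℕ} {g h : ℕ → ℤ} {c d : ℤ} (hg : BP n g c) (e : ∀ j, h j = g j)
    (ec : d = c) : BP n h d := by
  obtain ⟨a, ha, hc⟩ := hg
  exact ⟨a, fun j => (e j).trans (ha j), hc.trans ec.symm⟩

theorem bp_add {n : ℕ} {g h : ℕ → ℤ} {c d : ℤ} (hg : BP n g c) (hh : BP n h d) :
    BP n (fun j => g j + h j) (c + d) := by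
  obtain ⟨a, ha, hc⟩ := hg
  obtain ⟨b, hb, hd⟩ := hh
  refine ⟨fun r => a r + b r, fun j => ?_, by simp only [hc, hd]⟩
  simp only [ha j, hb j, add_mul, Finset.sum_add_distrib]

theorem bp_neg {n : ℕ} {g : ℕ → ℤ} {c : ℤ} (hg : BP n g c) :
    BP n (fun j => - g j) (-c) := by
  obtain ⟨a, ha, hc⟩ := hg
  refine ⟨fun r => - a r, fun j => ?_, by simp only [hc]⟩
  simp only [ha j, neg_mul, Finset.sum_neg_distrib]

theorem bp_zero (n : ℕ) : BP n (fun _ => 0) 0 :=
  ⟨fun _ => 0, fun j => by simp, rfl⟩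

theorem bp_sum {ι : Type} (s : Finset ι) (n : ℕ) (g : ι → ℕ → ℤ)
    (h : ∀ i ∈ s, BP n (g i) 0) : BP n (fun j => ∑ i ∈ s, g i j) 0 := by
  classical
  induction s using Finset.induction_on with
  | empty => exact bp_congr (bp_zero n) (fun j => by simp) rfl
  | insert i s hi ih =>
    have h1 := h i (Finset.mem_insert_self i s)
    have h2 := ih (fun k hk => h k (Finset.mem_insert_of_mem hk))
    exact bp_congr (bp_add h1 h2) (fun j => by rw [Finset.sum_insert hi]) (by simp)

/-- Good families. -/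
def Good (f : ℕ → PowerSeries ℤ) (c : ℕ → ℤ) : Prop :=
  (∀ j, PowerSeries.coeff 0 (f j) = 1) ∧ (∀ j, PowerSeries.coeff 1 (f j) = 0) ∧
    ∀ k, 2 ≤ k → BP (k - 1) (fun j => PowerSeries.coeff k (f j)) (c k)

theorem good_mul (hB : BchStmt) {f g : ℕ → PowerSeries ℤ} {c d : ℕ → ℤ} (hf : Good f c)
    (hg : Good g d) : Good (fun j => f j * g j) (fun k => c k + d k) := by
  obtain ⟨f0, f1, f2⟩ := hf
  obtain ⟨g0, g1, g2⟩ := hg
  refine ⟨fun j => ?_, fun j => ?_, fun k hk => ?_⟩
  · rw [PowerSeries.coeff_mul]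
    simp [f0, g0]
  · rw [PowerSeries.coeff_mul]
    rw [Finset.Nat.antidiagonal_succ]
    simp [f0, g0, f1, g1]
  · -- the products with both indices between 1 and k - 1
    have hmid : BP (k - 1) (fun j => ∑ a ∈ Finset.Ioo 0 k,
        PowerSeries.coeff a (f j) * PowerSeries.coeff (k - a) (g j)) 0 := by
      apply bp_sum
      intro a ha
      rw [Finset.mem_Ioo] at ha
      by_cases h1 : a = 1
      · subst h1
        exact bp_congr (bp_zero _) (fun j => by rw [f1 j]; ring) rfl
      by_cases h2 : k - a = 1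
      · exact bp_congr (bp_zero _) (fun j => by rw [h2, g1 j]; ring) rfl
      exact hB.1 (a - 1) (k - a - 1) (k - 1) _ _ _ _ (by omega) (by omega)
        (f2 a (by omega)) (g2 (k - a) (by omega)) (by omega)
    have := bp_add (bp_add (f2 k hk) (g2 k hk)) hmid
    refine bp_congr this (fun j => ?_) (by simp)
    rw [PowerSeries.coeff_mul, Finset.Nat.sum_antidiagonal_eq_sum_range_succ_mk,
      Finset.sum_range_succ, Finset.sum_range_eq_add_Ico _ (by omega : 0 < k)]
    have hI : Finset.Ico 1 k = Finset.Ioo 0 k := by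
      ext x; simp only [Finset.mem_Ico, Finset.mem_Ioo]; omega
    rw [hI]
    simp only [Nat.sub_zero, Nat.sub_self, f0 j, g0 j]
    ring

theorem good_bx (hB : BchStmt) (m : ℕ) (hm : 2 ≤ m) (e : ℕ → ℤ) (c : ℤ)
    (he : BP (m - 1) e c) :
    Good (fun j => bx m (-(e j))) (fun k => if k = m then -c else 0) := by
  refine ⟨fun j => ?_, fun j => ?_, fun k hk => ?_⟩
  · simp [bx, PowerSeries.coeff_mk]
  · have : ¬ m ∣ 1 := by
      intro h
      have := Nat.le_of_dvd one_pos h
      omega
    simp only [bx, PowerSeries.coeff_mk, if_neg this]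
  · by_cases hd : m ∣ k
    · obtain ⟨b, rfl⟩ := hd
      have hb0 : b ≠ 0 := by
        rintro rfl
        simp at hk
      by_cases hb1 : b = 1
      · subst hb1
        refine bp_congr (n := m * 1 - 1) (g := fun j => - e j) (c := -c) ?_ (fun j => ?_) ?_
        · rw [mul_one]
          exact bp_neg he
        · simp only [bx, PowerSeries.coeff_mk, mul_one, dvd_refl, if_true]
          rw [Nat.div_self (by omega), Ring.choose_one_right]
        · simp
      · have hne : m * b ≠ m := by
          intro h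
          have : m * b = m * 1 := by rw [h, mul_one]
          exact hb1 (Nat.eq_of_mul_eq_mul_left (by omega) this)
        obtain ⟨c', hc'⟩ := hB.2.1 (m - 1) b (fun j => - e j) (-c) (by omega) (by omega)
          (bp_neg he)
        have hlt : (m - 1) * b < m * b - 1 := by
          obtain ⟨m', rfl⟩ : ∃ m', m = m' + 1 := ⟨m - 1, by omega⟩
          have : (m' + 1) * b = m' * b + b := by ring
          simp only [Nat.add_sub_cancel]
          omega
        have hpos : 1 ≤ (m - 1) * b := Nat.one_le_iff_ne_zero.mpr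
          (Nat.mul_ne_zero (by omega) hb0)
        have := hB.2.2 ((m - 1) * b) (m * b - 1) _ c' hpos hc' hlt
        refine bp_congr this (fun j => ?_) (by simp [hne])
        simp only [bx, PowerSeries.coeff_mk, dvd_mul_right, if_true]
        rw [Nat.mul_div_cancel_left _ (by omega)]
    · have hne : k ≠ m := by
        rintro rfl
        exact hd dvd_rfl
      refine bp_congr (bp_zero _) (fun j => ?_) (by simp [hne])
      simp only [bx, PowerSeries.coeff_mk, if_neg hd]

theorem coeff_h0 (hQ : QexStmt) (j : ℕ) :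
    PowerSeries.coeff 0 (qq 1 + (1 - qq 1) * qq (j : ℤ)) = 1 := by
  have h1 : qq 1 = 1 + PowerSeries.X := hQ.2.1
  rw [h1]
  have : (1 - (1 + PowerSeries.X : PowerSeries ℤ)) = - PowerSeries.X := by ring
  rw [this]
  simp

theorem coeff_hs (hQ : QexStmt) (j k : ℕ) :
    PowerSeries.coeff (k + 1) (qq 1 + (1 - qq 1) * qq (j : ℤ)) =
      (if k = 0 then 1 else 0) - (j.choose k : ℤ) := by
  have h1 : qq 1 = 1 + PowerSeries.X := hQ.2.1
  rw [h1]
  have h2 : ((1 + PowerSeries.X : PowerSeries ℤ) + (1 - (1 + PowerSeries.X)) * qq (j : ℤ)) =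
      1 + PowerSeries.X - PowerSeries.X * qq (j : ℤ) := by ring
  rw [h2, map_sub, map_add, PowerSeries.coeff_succ_X_mul, PowerSeries.coeff_one,
    PowerSeries.coeff_X]
  have h3 : PowerSeries.coeff k (qq (j : ℤ)) = (j.choose k : ℤ) := by
    rw [qq, PowerSeries.coeff_mk, Ring.choose_natCast]
  rw [h3]
  by_cases hk : k = 0
  · subst hk
    simp
  · simp [hk]

theorem good_h (hQ : QexStmt) :
    Good (fun j => qq 1 + (1 - qq 1) * qq (j : ℤ)) (fun _ => -1) := by
  refine ⟨fun j => coeff_h0 hQ j, fun j => ?_, fun k hk => ?_⟩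
  · have := coeff_hs hQ j 0
    simpa using this
  · refine ⟨fun r => if r = k - 1 then -1 else 0, fun j => ?_, by simp⟩
    have := coeff_hs hQ j (k - 1)
    rw [show k - 1 + 1 = k by omega] at this
    rw [if_neg (by omega)] at this
    refine this.trans ?_
    simp only [ite_mul, zero_mul]
    rw [Finset.sum_ite_eq' (Finset.Icc 1 (k - 1)) (k - 1), if_pos (by simp; omega)]
    ring

theorem good_st (hE : EbxStmt) (hB : BchStmt) (hQ : QexStmt) (m : ℕ) :
    ∃ c : ℕ → ℤ, Good (fun j => st m (qq 1 + (1 - qq 1) * qq (j : ℤ))) c ∧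
      ∀ k, m < k → c k = -1 := by
  induction m with
  | zero => exact ⟨fun _ => -1, good_h hQ, fun _ _ => rfl⟩
  | succ m ih =>
    obtain ⟨c, hc, hk⟩ := ih
    rcases Nat.eq_zero_or_pos m with h0 | hpos
    · subst h0
      refine ⟨c, ?_, fun k h => hk k (by omega)⟩
      have : (fun j : ℕ => st (0 + 1) (qq 1 + (1 - qq 1) * qq (j : ℤ))) =
          (fun j : ℕ => st 0 (qq 1 + (1 - qq 1) * qq (j : ℤ))) := by
        funext j
        have h1 := hc.2.1 j
        simp only [st] at h1 ⊢
        rw [zero_add, h1, neg_zero, (hE 1 le_rfl).1, mul_one]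
      rw [this]
      exact hc
    · have he : BP (m + 1 - 1) (fun j : ℕ => PowerSeries.coeff (m + 1)
          (st m (qq 1 + (1 - qq 1) * qq (j : ℤ)))) (c (m + 1)) := hc.2.2 (m + 1) (by omega)
      have hb := good_bx hB (m + 1) (by omega) _ _ he
      refine ⟨_, good_mul hB hc hb, fun k h => ?_⟩
      simp only [hk k (by omega), if_neg (by omega : ¬ k = m + 1), add_zero]

theorem etw (hE : EbxStmt) (hB : BchStmt) (hQ : QexStmt) : EtwStmt := by
  intro m hm
  obtain ⟨c, hc, hk⟩ := good_st hE hB hQ (m - 1)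
  have h1 := hc.2.2 m hm
  rw [hk m (by omega)] at h1
  exact h1

end Pool.Agent.VTP.H42
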